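import Mathlib

/-!
# Eulerian oriented graphs that need `7 t` directed circuits on `10 t + 2` vertices

For every `t` there is an eulerian oriented graph with `10 t + 2` vertices such that every
decomposition of its arc set into directed circuits has at least `7 t` members.  For `t ≥ 5` this is
more than two thirds of the number of vertices.
-/

set_option autoImplicit false

namespace Pool.Agent.Results.MP_dc9599_co.SevenTenths

/-- A set of arcs `A` on the vertex set `V` is an oriented graph: no loops and no pair of opposite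
arcs. -/
def IsOriented {V : Type} (A : Finset (V × V)) : Prop :=
  ∀ u v : V, (u, v) ∈ A → (v, u) ∉ A

/-- The number of arcs leaving `v`. -/
def outDeg {V : Type} [DecidableEq V] (A : Finset (V × V)) (v : V) : ℕ :=
  (A.filter (fun e => e.1 = v)).card

/-- The number of arcs entering `v`. -/
def inDeg {V : Type} [DecidableEq V] (A : Finset (V × V)) (v : V) : ℕ :=
  (A.filter (fun e => e.2 = v)).card

/-- Eulerian: at every vertex as many arcs enter as leave. -/
def IsEulerian {V : Type} [DecidableEq V] (A : Finset (V × V)) : Prop :=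
  ∀ v : V, outDeg A v = inDeg A v

/-- `C` is the set of arcs of a directed circuit `v_0 v_1 ... v_{k-1} v_0` with `k ≥ 3` distinct
vertices (the indices are taken modulo `k`). -/
def IsCircuit {V : Type} (C : Finset (V × V)) : Prop :=
  ∃ k : ℕ, 3 ≤ k ∧ ∃ v : ZMod k → V, Function.Injective v ∧
    ∀ e : V × V, e ∈ C ↔ ∃ i : ZMod k, e = (v i, v (i + 1))

/-- `P` is a decomposition of `A` into directed circuits: a family of directed circuits whose arc
sets are pairwise disjoint and have union `A`. -/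
def IsDecomposition {V : Type} (A : Finset (V × V)) (P : Finset (Finset (V × V))) : Prop :=
  (∀ C ∈ P, IsCircuit C) ∧ (∀ C ∈ P, ∀ C' ∈ P, C ≠ C' → Disjoint C C') ∧
    ∀ e : V × V, e ∈ A ↔ ∃ C ∈ P, e ∈ C

/-! ### Circuits -/

section circuits

variable {V : Type}

theorem right_unique {C : Finset (V × V)} (hC : IsCircuit C) {a b b' : V}
    (h : (a, b) ∈ C) (h' : (a, b') ∈ C) : b = b' := by
  obtain ⟨k, hk, v, hv, hm⟩ := hC
  obtain ⟨i, hi⟩ := (hm _).mp h
  obtain ⟨j, hj⟩ := (hm _).mp h'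
  simp only [Prod.mk.injEq] at hi hj
  have : i = j := hv (hi.1.symm.trans hj.1)
  rw [hi.2, hj.2, this]

theorem left_unique {C : Finset (V × V)} (hC : IsCircuit C) {a a' b : V}
    (h : (a, b) ∈ C) (h' : (a', b) ∈ C) : a = a' := by
  obtain ⟨k, hk, v, hv, hm⟩ := hC
  obtain ⟨i, hi⟩ := (hm _).mp h
  obtain ⟨j, hj⟩ := (hm _).mp h'
  simp only [Prod.mk.injEq] at hi hj
  have : i = j := add_right_cancel (hv (hi.2.symm.trans hj.2))
  rw [hi.1, hj.1, this]

theorem exists_next {C : Finset (V × V)} (hC : IsCircuit C) {a b : V}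
    (h : (a, b) ∈ C) : ∃ b', (b, b') ∈ C := by
  obtain ⟨k, hk, v, hv, hm⟩ := hC
  obtain ⟨i, hi⟩ := (hm _).mp h
  simp only [Prod.mk.injEq] at hi
  exact ⟨v (i + 1 + 1), (hm _).mpr ⟨i + 1, by rw [hi.2]⟩⟩

/-- A property that passes along arcs holds on the whole circuit once it holds somewhere. -/
theorem closure {C : Finset (V × V)} (hC : IsCircuit C) (S : V → Prop)
    (hS : ∀ a b, (a, b) ∈ C → S a → S b) {a b : V} (hab : (a, b) ∈ C) (hSa : S a) :
    ∀ c d, (c, d) ∈ C → S c := by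
  obtain ⟨k, hk, v, hv, hm⟩ := hC
  obtain ⟨i, hi⟩ := (hm _).mp hab
  simp only [Prod.mk.injEq] at hi
  have key : ∀ n : ℕ, S (v (i + (n : ZMod k))) := by
    intro n
    induction n with
    | zero => simpa [hi.1] using hSa
    | succ n ih =>
      have := hS _ _ ((hm (v (i + (n : ZMod k)), v (i + (n : ZMod k) + 1))).mpr ⟨_, rfl⟩) ih
      rw [add_assoc] at this
      simpa using this
  intro c d hcd
  obtain ⟨j, hj⟩ := (hm _).mp hcd
  simp only [Prod.mk.injEq] at hj
  have : NeZero k := ⟨by omega⟩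
  have h1 := key (j - i).val
  rw [ZMod.natCast_zmod_val, add_sub_cancel] at h1
  rw [hj.1]
  exact h1

end circuits

/-! ### The digraph: two centres and `t` petals at each centre -/

/-- Vertices: two centres, and five vertices in each petal (`0` is the hub, `1, 2` are the
`x`-vertices and `3, 4` are the `y`-vertices). -/
abbrev Vtx (t : ℕ) : Type := Fin 2 ⊕ (Fin 2 × Fin t × Fin 5)

/-- Adjacency inside a petal: hub to `x`, `x` to `y`, `y` to hub. -/
def loc (j j' : Fin 5) : Bool :=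
  (j == 0 && (j' == 1 || j' == 2)) || ((j == 1 || j == 2) && (j' == 3 || j' == 4)) ||
    ((j == 3 || j == 4) && j' == 0)

/-- Adjacency of the digraph. -/
def adj (t : ℕ) : Vtx t → Vtx t → Bool
  | Sum.inl _, Sum.inl _ => false
  | Sum.inl s, Sum.inr (s', _, j) => s == s' && (j == 0 || j == 1 || j == 2)
  | Sum.inr (s, _, j), Sum.inl s' => (j == 0 && !(s' == s)) || ((j == 3 || j == 4) && s' == s)
  | Sum.inr (s, i, j), Sum.inr (s', i', j') => s == s' && i == i' && loc j j'

/-- The arcs of the digraph. -/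
def A (t : ℕ) : Finset (Vtx t × Vtx t) := Finset.univ.filter (fun e => adj t e.1 e.2 = true)

theorem mem_A {t : ℕ} {a b : Vtx t} : (a, b) ∈ A t ↔ adj t a b = true := by
  simp [A]

theorem loc_asymm : ∀ j j' : Fin 5, loc j j' = true → loc j' j = true → False := by decide

theorem oriented (t : ℕ) : IsOriented (A t) := by
  intro u v h h'
  rw [mem_A] at h h'
  rcases u with s | ⟨s, i, j⟩ <;> rcases v with s' | ⟨s', i', j'⟩
  · simp [adj] at h
  · simp only [adj, Bool.and_eq_true, Bool.or_eq_true, beq_iff_eq, Bool.not_eq_true',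
      beq_eq_false_iff_ne, ne_eq] at h h'
    obtain ⟨rfl, h1⟩ := h
    rcases h' with ⟨_, h2⟩ | ⟨h2, _⟩
    · exact h2 rfl
    · revert h1 h2
      revert j'
      decide
  · simp only [adj, Bool.and_eq_true, Bool.or_eq_true, beq_iff_eq, Bool.not_eq_true',
      beq_eq_false_iff_ne, ne_eq] at h h'
    obtain ⟨rfl, h1⟩ := h'
    rcases h with ⟨_, h2⟩ | ⟨h2, _⟩
    · exact h2 rfl
    · revert h1 h2
      revert j
      decide
  · simp only [adj, Bool.and_eq_true, beq_iff_eq] at h h'
    exact loc_asymm _ _ h.2 h'.2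

theorem loc_degs : ∀ j : Fin 5, ∀ s : Fin 2,
    (∑ s' : Fin 2, ((j == 0 && !(s' == s)) || ((j == 3 || j == 4) && s' == s)).toNat)
      + (∑ j' : Fin 5, (loc j j').toNat)
    = (∑ s' : Fin 2, (s' == s && (j == 0 || j == 1 || j == 2)).toNat)
      + (∑ j' : Fin 5, (loc j' j).toNat) := by decide

theorem cen_degs : ∀ s : Fin 2,
    (∑ s' : Fin 2, ∑ j : Fin 5, (s == s' && (j == 0 || j == 1 || j == 2)).toNat)
    = ∑ s' : Fin 2, ∑ j : Fin 5,
      ((j == 0 && !(s == s')) || ((j == 3 || j == 4) && s == s')).toNat := by decide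

theorem outDeg_eq {t : ℕ} (v : Vtx t) :
    outDeg (A t) v = ∑ b : Vtx t, (adj t v b).toNat := by
  unfold outDeg
  have h1 : (A t).filter (fun e => e.1 = v) =
      (Finset.univ.filter (fun b : Vtx t => adj t v b = true)).map
        ⟨fun b => (v, b), fun _ _ h => (Prod.ext_iff.mp h).2⟩ := by
    ext ⟨a, b⟩
    simp only [Finset.mem_filter, Finset.mem_map, Finset.mem_univ, true_and, mem_A]
    constructor
    · rintro ⟨h, rfl⟩
      exact ⟨b, h, rfl⟩
    · rintro ⟨b', h, h'⟩
      obtain ⟨rfl, rfl⟩ := Prod.ext_iff.mp h'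
      exact ⟨h, rfl⟩
  rw [h1, Finset.card_map, Finset.card_filter]
  refine Finset.sum_congr rfl fun b _ => ?_
  cases adj t v b <;> rfl

theorem inDeg_eq {t : ℕ} (v : Vtx t) :
    inDeg (A t) v = ∑ b : Vtx t, (adj t b v).toNat := by
  unfold inDeg
  have h1 : (A t).filter (fun e => e.2 = v) =
      (Finset.univ.filter (fun b : Vtx t => adj t b v = true)).map
        ⟨fun b => (b, v), fun _ _ h => (Prod.ext_iff.mp h).1⟩ := by
    ext ⟨a, b⟩
    simp only [Finset.mem_filter, Finset.mem_map, Finset.mem_univ, true_and, mem_A]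
    constructor
    · rintro ⟨h, rfl⟩
      exact ⟨a, h, rfl⟩
    · rintro ⟨b', h, h'⟩
      obtain ⟨rfl, rfl⟩ := Prod.ext_iff.mp h'
      exact ⟨h, rfl⟩
  rw [h1, Finset.card_map, Finset.card_filter]
  refine Finset.sum_congr rfl fun b _ => ?_
  cases adj t b v <;> rfl

theorem eulerian (t : ℕ) : IsEulerian (A t) := by
  intro v
  rw [outDeg_eq, inDeg_eq, Fintype.sum_sum_type, Fintype.sum_sum_type]
  simp only [Fintype.sum_prod_type]
  rcases v with s | ⟨s, i, j⟩
  · simp only [adj, Bool.toNat_false, Finset.sum_const_zero, zero_add, Finset.sum_const,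
      Finset.card_univ, Fintype.card_fin, smul_eq_mul]
    rw [← Finset.mul_sum, ← Finset.mul_sum, cen_degs]
  · simp only [adj]
    have hs : ∀ f : Fin 5 → Bool,
        (∑ s' : Fin 2, ∑ i' : Fin t, ∑ j' : Fin 5, (s == s' && i == i' && f j').toNat)
        = ∑ j' : Fin 5, (f j').toNat := by
      intro f
      rw [Finset.sum_eq_single s, Finset.sum_eq_single i]
      · simp
      · intro b _ hb
        simp [Ne.symm hb]
      · simp
      · intro b _ hb
        simp [Ne.symm hb]
      · simp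
    have hs' : ∀ f : Fin 5 → Bool,
        (∑ s' : Fin 2, ∑ i' : Fin t, ∑ j' : Fin 5, (s' == s && i' == i && f j').toNat)
        = ∑ j' : Fin 5, (f j').toNat := by
      intro f
      rw [Finset.sum_eq_single s, Finset.sum_eq_single i]
      · simp
      · intro b _ hb
        simp [hb]
      · simp
      · intro b _ hb
        simp [hb]
      · simp
    rw [hs (fun j' => loc j j'), hs' (fun j' => loc j' j)]
    exact loc_degs j s

/-- The centre on the side `s`. -/
abbrev cen {t : ℕ} (s : Fin 2) : Vtx t := Sum.inl s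

/-- The `j`-th vertex of the `i`-th petal on the side `s`. -/
abbrev pet {t : ℕ} (s : Fin 2) (i : Fin t) (j : Fin 5) : Vtx t := Sum.inr (s, i, j)

theorem pet_inj {t : ℕ} {s s' : Fin 2} {i i' : Fin t} {j j' : Fin 5}
    (h : pet s i j = pet s' i' j') : s = s' ∧ i = i' ∧ j = j' := by
  simpa using h

theorem pet_ne_cen {t : ℕ} (s s' : Fin 2) (i : Fin t) (j : Fin 5) : pet s i j ≠ cen s' := by
  simp

/-! Neighbourhoods. -/

theorem arc_out_cen {t : ℕ} (s : Fin 2) (i : Fin t) : (cen s, pet s i 0) ∈ A t ∧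
    (cen s, pet s i 1) ∈ A t ∧ (cen s, pet s i 2) ∈ A t := by
  simp [mem_A, adj]

theorem arc_hub {t : ℕ} (s : Fin 2) (i : Fin t) : (pet s i 0, pet s i 1) ∈ A t ∧
    (pet s i 0, pet s i 2) ∈ A t ∧ (pet s i 0, cen (1 - s)) ∈ A t := by
  fin_cases s <;> simp [mem_A, adj, loc]

theorem arc_xy {t : ℕ} (s : Fin 2) (i : Fin t) : (pet s i 1, pet s i 3) ∈ A t ∧
    (pet s i 1, pet s i 4) ∈ A t ∧ (pet s i 2, pet s i 3) ∈ A t ∧
    (pet s i 2, pet s i 4) ∈ A t := by
  simp [mem_A, adj, loc]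

theorem arc_y {t : ℕ} (s : Fin 2) (i : Fin t) : (pet s i 3, pet s i 0) ∈ A t ∧
    (pet s i 4, pet s i 0) ∈ A t ∧ (pet s i 3, cen s) ∈ A t ∧ (pet s i 4, cen s) ∈ A t := by
  simp [mem_A, adj, loc]

theorem out_hub {t : ℕ} (s : Fin 2) (i : Fin t) (b : Vtx t) (h : (pet s i 0, b) ∈ A t) :
    b = pet s i 1 ∨ b = pet s i 2 ∨ b = cen (1 - s) := by
  rw [mem_A] at h
  rcases b with s' | ⟨s', i', j'⟩
  · fin_cases s <;> fin_cases s' <;> simp [adj] at h ⊢
  · simp only [adj, Bool.and_eq_true, beq_iff_eq] at h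
    obtain ⟨⟨rfl, rfl⟩, h⟩ := h
    revert h
    revert j'
    simp [loc]

theorem out_x1 {t : ℕ} (s : Fin 2) (i : Fin t) (b : Vtx t) (h : (pet s i 1, b) ∈ A t) :
    b = pet s i 3 ∨ b = pet s i 4 := by
  rw [mem_A] at h
  rcases b with s' | ⟨s', i', j'⟩
  · simp [adj] at h
  · simp only [adj, Bool.and_eq_true, beq_iff_eq] at h
    obtain ⟨⟨rfl, rfl⟩, h⟩ := h
    revert h
    revert j'
    simp [loc]

theorem out_x2 {t : ℕ} (s : Fin 2) (i : Fin t) (b : Vtx t) (h : (pet s i 2, b) ∈ A t) :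
    b = pet s i 3 ∨ b = pet s i 4 := by
  rw [mem_A] at h
  rcases b with s' | ⟨s', i', j'⟩
  · simp [adj] at h
  · simp only [adj, Bool.and_eq_true, beq_iff_eq] at h
    obtain ⟨⟨rfl, rfl⟩, h⟩ := h
    revert h
    revert j'
    simp [loc]

theorem out_y1 {t : ℕ} (s : Fin 2) (i : Fin t) (b : Vtx t) (h : (pet s i 3, b) ∈ A t) :
    b = pet s i 0 ∨ b = cen s := by
  rw [mem_A] at h
  rcases b with s' | ⟨s', i', j'⟩
  · simp [adj] at h
    simp [h]
  · simp only [adj, Bool.and_eq_true, beq_iff_eq] at h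
    obtain ⟨⟨rfl, rfl⟩, h⟩ := h
    revert h
    revert j'
    simp [loc]

theorem out_y2 {t : ℕ} (s : Fin 2) (i : Fin t) (b : Vtx t) (h : (pet s i 4, b) ∈ A t) :
    b = pet s i 0 ∨ b = cen s := by
  rw [mem_A] at h
  rcases b with s' | ⟨s', i', j'⟩
  · simp [adj] at h
    simp [h]
  · simp only [adj, Bool.and_eq_true, beq_iff_eq] at h
    obtain ⟨⟨rfl, rfl⟩, h⟩ := h
    revert h
    revert j'
    simp [loc]

/-- The set of vertices on the side `0`. -/
def side0 {t : ℕ} (v : Vtx t) : Prop := v = cen 0 ∨ ∃ i j, v = pet 0 i j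

/-- The only arcs leaving the side `0` are the arcs from the hubs to the centre `1`. -/
theorem cross {t : ℕ} (a b : Vtx t) (h : (a, b) ∈ A t) (ha : side0 a) (hb : ¬ side0 b) :
    ∃ i, a = pet 0 i 0 ∧ b = cen 1 := by
  rw [mem_A] at h
  rcases ha with rfl | ⟨i, j, rfl⟩
  · rcases b with s' | ⟨s', i', j'⟩
    · simp [adj] at h
    · simp only [adj, Bool.and_eq_true, beq_iff_eq] at h
      obtain ⟨rfl, _⟩ := h
      exact absurd (Or.inr ⟨i', j', rfl⟩) hb
  · rcases b with s' | ⟨s', i', j'⟩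
    · have hs : s' = 1 := by
        fin_cases s'
        · exact absurd (Or.inl rfl) hb
        · rfl
      subst hs
      refine ⟨i, ?_, rfl⟩
      simp [adj] at h
      rw [h]
    · simp only [adj, Bool.and_eq_true, beq_iff_eq] at h
      obtain ⟨⟨rfl, rfl⟩, _⟩ := h
      exact absurd (Or.inr ⟨_, j', rfl⟩) hb

/-- The local case analysis at a petal, on the labels of its arcs. -/
theorem local_case {α : Type} (hx1 hx2 hc cx1 cx2 x1y1 x1y2 x2y1 x2y2 y1h y2h y1c y2c : α)
    (n1 : hx1 = x1y1 → x1y1 ≠ y1h) (n2 : hx1 = x1y2 → x1y2 ≠ y2h)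
    (n3 : hx2 = x2y1 → x2y1 ≠ y1h) (n4 : hx2 = x2y2 → x2y2 ≠ y2h)
    (d6 : y1h ≠ y1c) (d7 : y2h ≠ y2c) (e3 : y1h ≠ y2h) (e4 : cx1 ≠ hx1) (e5 : cx2 ≠ hx2)
    (e6 : x1y1 ≠ x2y1) (e7 : x1y2 ≠ x2y2)
    (f1 : hx1 = x1y1 ∨ hx1 = x1y2) (f2 : hx2 = x2y1 ∨ hx2 = x2y2)
    (f3 : cx1 = x1y1 ∨ cx1 = x1y2) (f4 : cx2 = x2y1 ∨ cx2 = x2y2)
    (f5 : x1y1 = y1h ∨ x1y1 = y1c) (f6 : x2y1 = y1h ∨ x2y1 = y1c)
    (f7 : x1y2 = y2h ∨ x1y2 = y2c) (f8 : x2y2 = y2h ∨ x2y2 = y2c)
    (f9 : y1h = hx1 ∨ y1h = hx2 ∨ y1h = hc) (f10 : y2h = hx1 ∨ y2h = hx2 ∨ y2h = hc) : False := by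
  rcases f1 with f1 | f1
  · have g5 : x1y1 = y1c := f5.resolve_left (n1 f1)
    have g6 : x2y1 = y1h := f6.resolve_right (fun h => e6 (g5.trans h.symm))
    have g2 : hx2 = x2y2 := f2.resolve_left (fun h => n3 h g6)
    have g8 : x2y2 = y2c := f8.resolve_left (n4 g2)
    have g7 : x1y2 = y2h := f7.resolve_right (fun h => e7 (h.trans g8.symm))
    have g3 : cx1 = x1y2 := f3.resolve_left (fun h => e4 (h.trans f1.symm))
    have g4 : cx2 = x2y1 := f4.resolve_right (fun h => e5 (h.trans g2.symm))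
    have g9 : y1h = hc := by
      rcases f9 with h | h | h
      · exact absurd (h.trans (f1.trans g5)) d6
      · exact absurd (g4.trans (g6.trans h)) e5
      · exact h
    have g10 : y2h = hc := by
      rcases f10 with h | h | h
      · exact absurd (g3.trans (g7.trans h)) e4
      · exact absurd (h.trans (g2.trans g8)) d7
      · exact h
    exact e3 (g9.trans g10.symm)
  · have g7 : x1y2 = y2c := f7.resolve_left (n2 f1)
    have g8 : x2y2 = y2h := f8.resolve_right (fun h => e7 (g7.trans h.symm))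
    have g2 : hx2 = x2y1 := f2.resolve_right (fun h => n4 h g8)
    have g6 : x2y1 = y1c := f6.resolve_left (n3 g2)
    have g5 : x1y1 = y1h := f5.resolve_right (fun h => e6 (h.trans g6.symm))
    have g3 : cx1 = x1y1 := f3.resolve_right (fun h => e4 (h.trans f1.symm))
    have g4 : cx2 = x2y2 := f4.resolve_left (fun h => e5 (h.trans g2.symm))
    have g9 : y1h = hc := by
      rcases f9 with h | h | h
      · exact absurd (g3.trans (g5.trans h)) e4
      · exact absurd (h.trans (g2.trans g6)) d6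
      · exact h
    have g10 : y2h = hc := by
      rcases f10 with h | h | h
      · exact absurd (h.trans (f1.trans g7)) d7
      · exact absurd (g4.trans (g8.trans h)) e5
      · exact h
    exact e3 (g9.trans g10.symm)

/-- In every petal one of the circuits is a triangle through the hub that avoids the centres. -/
theorem petal_triangle {t : ℕ} {α : Type} (o : Vtx t → Vtx t → α)
    (R1 : ∀ a b b', (a, b) ∈ A t → (a, b') ∈ A t → o a b = o a b' → b = b')
    (R2 : ∀ a a' b, (a, b) ∈ A t → (a', b) ∈ A t → o a b = o a' b → a = a')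
    (R3 : ∀ a b, (a, b) ∈ A t → ∃ b', (b, b') ∈ A t ∧ o b b' = o a b) (s : Fin 2) (i : Fin t) :
    ∃ x y : Fin 5, (x = 1 ∨ x = 2) ∧ (y = 3 ∨ y = 4) ∧
      o (pet s i 0) (pet s i x) = o (pet s i x) (pet s i y) ∧
      o (pet s i x) (pet s i y) = o (pet s i y) (pet s i 0) := by
  by_contra hcon
  push Not at hcon
  have n1 := hcon 1 3 (Or.inl rfl) (Or.inl rfl)
  have n2 := hcon 1 4 (Or.inl rfl) (Or.inr rfl)
  have n3 := hcon 2 3 (Or.inr rfl) (Or.inl rfl)
  have n4 := hcon 2 4 (Or.inr rfl) (Or.inr rfl)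
  clear hcon
  obtain ⟨ach, acx1, acx2⟩ := arc_out_cen s i
  obtain ⟨ahx1, ahx2, ahc⟩ := arc_hub s i
  obtain ⟨a13, a14, a23, a24⟩ := arc_xy s i
  obtain ⟨a30, a40, a3c, a4c⟩ := arc_y s i
  have pne : ∀ j j' : Fin 5, j ≠ j' → pet s i j ≠ pet s i j' :=
    fun j j' hj h => hj (pet_inj h).2.2
  have d6 : o (pet s i 3) (pet s i 0) ≠ o (pet s i 3) (cen s) :=
    fun h => pet_ne_cen _ _ _ _ (R1 _ _ _ a30 a3c h)
  have d7 : o (pet s i 4) (pet s i 0) ≠ o (pet s i 4) (cen s) :=
    fun h => pet_ne_cen _ _ _ _ (R1 _ _ _ a40 a4c h)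
  -- distinct in-arcs
  have e3 : o (pet s i 3) (pet s i 0) ≠ o (pet s i 4) (pet s i 0) :=
    fun h => pne 3 4 (by decide) (R2 _ _ _ a30 a40 h)
  have e4 : o (cen s) (pet s i 1) ≠ o (pet s i 0) (pet s i 1) :=
    fun h => pet_ne_cen _ _ _ _ (R2 _ _ _ acx1 ahx1 h).symm
  have e5 : o (cen s) (pet s i 2) ≠ o (pet s i 0) (pet s i 2) :=
    fun h => pet_ne_cen _ _ _ _ (R2 _ _ _ acx2 ahx2 h).symm
  have e6 : o (pet s i 1) (pet s i 3) ≠ o (pet s i 2) (pet s i 3) :=
    fun h => pne 1 2 (by decide) (R2 _ _ _ a13 a23 h)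
  have e7 : o (pet s i 1) (pet s i 4) ≠ o (pet s i 2) (pet s i 4) :=
    fun h => pne 1 2 (by decide) (R2 _ _ _ a14 a24 h)
  -- successors
  have f1 : o (pet s i 0) (pet s i 1) = o (pet s i 1) (pet s i 3) ∨
      o (pet s i 0) (pet s i 1) = o (pet s i 1) (pet s i 4) := by
    obtain ⟨b, hb, hb'⟩ := R3 _ _ ahx1
    rcases out_x1 s i b hb with rfl | rfl
    · exact Or.inl hb'.symm
    · exact Or.inr hb'.symm
  have f2 : o (pet s i 0) (pet s i 2) = o (pet s i 2) (pet s i 3) ∨
      o (pet s i 0) (pet s i 2) = o (pet s i 2) (pet s i 4) := by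
    obtain ⟨b, hb, hb'⟩ := R3 _ _ ahx2
    rcases out_x2 s i b hb with rfl | rfl
    · exact Or.inl hb'.symm
    · exact Or.inr hb'.symm
  have f3 : o (cen s) (pet s i 1) = o (pet s i 1) (pet s i 3) ∨
      o (cen s) (pet s i 1) = o (pet s i 1) (pet s i 4) := by
    obtain ⟨b, hb, hb'⟩ := R3 _ _ acx1
    rcases out_x1 s i b hb with rfl | rfl
    · exact Or.inl hb'.symm
    · exact Or.inr hb'.symm
  have f4 : o (cen s) (pet s i 2) = o (pet s i 2) (pet s i 3) ∨
      o (cen s) (pet s i 2) = o (pet s i 2) (pet s i 4) := by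
    obtain ⟨b, hb, hb'⟩ := R3 _ _ acx2
    rcases out_x2 s i b hb with rfl | rfl
    · exact Or.inl hb'.symm
    · exact Or.inr hb'.symm
  have f5 : o (pet s i 1) (pet s i 3) = o (pet s i 3) (pet s i 0) ∨
      o (pet s i 1) (pet s i 3) = o (pet s i 3) (cen s) := by
    obtain ⟨b, hb, hb'⟩ := R3 _ _ a13
    rcases out_y1 s i b hb with rfl | rfl
    · exact Or.inl hb'.symm
    · exact Or.inr hb'.symm
  have f6 : o (pet s i 2) (pet s i 3) = o (pet s i 3) (pet s i 0) ∨
      o (pet s i 2) (pet s i 3) = o (pet s i 3) (cen s) := by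
    obtain ⟨b, hb, hb'⟩ := R3 _ _ a23
    rcases out_y1 s i b hb with rfl | rfl
    · exact Or.inl hb'.symm
    · exact Or.inr hb'.symm
  have f7 : o (pet s i 1) (pet s i 4) = o (pet s i 4) (pet s i 0) ∨
      o (pet s i 1) (pet s i 4) = o (pet s i 4) (cen s) := by
    obtain ⟨b, hb, hb'⟩ := R3 _ _ a14
    rcases out_y2 s i b hb with rfl | rfl
    · exact Or.inl hb'.symm
    · exact Or.inr hb'.symm
  have f8 : o (pet s i 2) (pet s i 4) = o (pet s i 4) (pet s i 0) ∨
      o (pet s i 2) (pet s i 4) = o (pet s i 4) (cen s) := by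
    obtain ⟨b, hb, hb'⟩ := R3 _ _ a24
    rcases out_y2 s i b hb with rfl | rfl
    · exact Or.inl hb'.symm
    · exact Or.inr hb'.symm
  have f9 : o (pet s i 3) (pet s i 0) = o (pet s i 0) (pet s i 1) ∨
      o (pet s i 3) (pet s i 0) = o (pet s i 0) (pet s i 2) ∨
      o (pet s i 3) (pet s i 0) = o (pet s i 0) (cen (1 - s)) := by
    obtain ⟨b, hb, hb'⟩ := R3 _ _ a30
    rcases out_hub s i b hb with rfl | rfl | rfl
    · exact Or.inl hb'.symm
    · exact Or.inr (Or.inl hb'.symm)
    · exact Or.inr (Or.inr hb'.symm)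
  have f10 : o (pet s i 4) (pet s i 0) = o (pet s i 0) (pet s i 1) ∨
      o (pet s i 4) (pet s i 0) = o (pet s i 0) (pet s i 2) ∨
      o (pet s i 4) (pet s i 0) = o (pet s i 0) (cen (1 - s)) := by
    obtain ⟨b, hb, hb'⟩ := R3 _ _ a40
    rcases out_hub s i b hb with rfl | rfl | rfl
    · exact Or.inl hb'.symm
    · exact Or.inr (Or.inl hb'.symm)
    · exact Or.inr (Or.inr hb'.symm)
  exact local_case _ _ _ _ _ _ _ _ _ _ _ _ _ n1 n2 n3 n4 d6 d7 e3 e4 e5 e6 e7 f1 f2 f3 f4 f5 f6
    f7 f8 f9 f10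

theorem arc_out_cen' {t : ℕ} (s : Fin 2) (i : Fin t) (j : Fin 3) :
    (cen s, pet s i (Fin.castLE (by decide) j)) ∈ A t := by
  obtain ⟨h0, h1, h2⟩ := arc_out_cen s i
  fin_cases j
  · exact h0
  · exact h1
  · exact h2

/-- Every decomposition of the digraph has at least `7 t` circuits. -/
theorem seven_t (t : ℕ) (P : Finset (Finset (Vtx t × Vtx t))) (hP : IsDecomposition (A t) P) :
    7 * t ≤ P.card := by
  classical
  obtain ⟨hcirc, hdisj, hcov⟩ := hP
  -- the circuit through each arc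
  have own : ∀ a b : Vtx t, ∃ C : Finset (Vtx t × Vtx t), (a, b) ∈ A t → C ∈ P ∧ (a, b) ∈ C := by
    intro a b
    by_cases h : (a, b) ∈ A t
    · obtain ⟨C, hC, he⟩ := (hcov _).mp h
      exact ⟨C, fun _ => ⟨hC, he⟩⟩
    · exact ⟨∅, fun h' => absurd h' h⟩
  choose o ho using own
  have uniq : ∀ C ∈ P, ∀ a b, (a, b) ∈ C → o a b = C := by
    intro C hC a b h
    obtain ⟨hC', h'⟩ := ho a b ((hcov _).mpr ⟨C, hC, h⟩)
    by_contra hne
    exact Finset.disjoint_left.mp (hdisj _ hC' _ hC hne) h' h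
  have R1 : ∀ a b b', (a, b) ∈ A t → (a, b') ∈ A t → o a b = o a b' → b = b' := by
    intro a b b' hb hb' h
    obtain ⟨hk, hm⟩ := ho a b hb
    obtain ⟨hk', hm'⟩ := ho a b' hb'
    rw [← h] at hm'
    exact right_unique (hcirc _ hk) hm hm'
  have R2 : ∀ a a' b, (a, b) ∈ A t → (a', b) ∈ A t → o a b = o a' b → a = a' := by
    intro a a' b hb hb' h
    obtain ⟨hk, hm⟩ := ho a b hb
    obtain ⟨hk', hm'⟩ := ho a' b hb'
    rw [← h] at hm'
    exact left_unique (hcirc _ hk) hm hm'
  have R3 : ∀ a b, (a, b) ∈ A t → ∃ b', (b, b') ∈ A t ∧ o b b' = o a b := by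
    intro a b hb
    obtain ⟨hk, hm⟩ := ho a b hb
    obtain ⟨b', hb'⟩ := exists_next (hcirc _ hk) hm
    exact ⟨b', (hcov _).mpr ⟨_, hk, hb'⟩, uniq _ hk _ _ hb'⟩
  -- the triangles
  have tri : ∀ (s : Fin 2) (i : Fin t), ∃ C ∈ P,
      (∃ b, (pet s i 0, b) ∈ C) ∧ ∀ a b, (a, b) ∈ C → ∃ j, a = pet s i j := by
    intro s i
    obtain ⟨x, y, hx, hy, hxy, hyh⟩ := petal_triangle o R1 R2 R3 s i
    have ax : (pet s i 0, pet s i x) ∈ A t := by
      rcases hx with rfl | rfl
      · exact (arc_hub s i).1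
      · exact (arc_hub s i).2.1
    have axy : (pet s i x, pet s i y) ∈ A t := by
      obtain ⟨b1, b2, b3, b4⟩ := arc_xy s i
      rcases hx with rfl | rfl <;> rcases hy with rfl | rfl <;> assumption
    have ayh : (pet s i y, pet s i 0) ∈ A t := by
      rcases hy with rfl | rfl
      · exact (arc_y s i).1
      · exact (arc_y s i).2.1
    obtain ⟨hk, m1⟩ := ho _ _ ax
    obtain ⟨hk2, m2⟩ := ho _ _ axy
    obtain ⟨hk3, m3⟩ := ho _ _ ayh
    rw [← hxy] at m2 hyh
    rw [← hyh] at m3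
    refine ⟨o (pet s i 0) (pet s i x), hk, ⟨_, m1⟩, ?_⟩
    have hcl := closure (hcirc _ hk)
      (fun v => v = pet s i 0 ∨ v = pet s i x ∨ v = pet s i y) (by
        intro a b hab ha
        rcases ha with rfl | rfl | rfl
        · exact Or.inr (Or.inl (right_unique (hcirc _ hk) hab m1))
        · exact Or.inr (Or.inr (right_unique (hcirc _ hk) hab m2))
        · exact Or.inl (right_unique (hcirc _ hk) hab m3))
      m1 (Or.inl rfl)
    intro a b hab
    rcases hcl a b hab with h | h | h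
    · exact ⟨0, h⟩
    · exact ⟨x, h⟩
    · exact ⟨y, h⟩
  choose kk hkk hub petv using tri
  -- circuits through the centres
  let X : Fin 2 → Finset (Finset (Vtx t × Vtx t)) := fun s => Finset.univ.image
    (fun p : Fin t × Fin 3 => o (cen s) (pet s p.1 (Fin.castLE (by decide) p.2)))
  have hXcard : ∀ s, (X s).card = 3 * t := by
    intro s
    have : Function.Injective
        (fun p : Fin t × Fin 3 => o (cen s) (pet s p.1 (Fin.castLE (by decide) p.2))) := by
      intro p q hpq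
      have := R1 _ _ _ (arc_out_cen' s p.1 p.2) (arc_out_cen' s q.1 q.2) hpq
      obtain ⟨_, h5, h6⟩ := pet_inj this
      have h7 := congrArg Fin.val h6
      exact Prod.ext h5 (Fin.ext h7)
    rw [Finset.card_image_of_injective _ this]
    simp [mul_comm]
  have hXmem : ∀ s, ∀ C ∈ X s, C ∈ P ∧ ∃ b, (cen s, b) ∈ C := by
    intro s C hC
    simp only [X, Finset.mem_image, Finset.mem_univ, true_and] at hC
    obtain ⟨p, rfl⟩ := hC
    obtain ⟨hk, hm⟩ := ho _ _ (arc_out_cen' s p.1 p.2)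
    exact ⟨hk, _, hm⟩
  have hinter : X 0 ∩ X 1 ⊆ Finset.univ.image (fun i : Fin t => o (pet 0 i 0) (cen 1)) := by
    intro C hC
    rw [Finset.mem_inter] at hC
    obtain ⟨hC0, b0, hc0⟩ := hXmem 0 C hC.1
    obtain ⟨_, b1, hc1⟩ := hXmem 1 C hC.2
    have : ∃ a b, (a, b) ∈ C ∧ side0 a ∧ ¬ side0 b := by
      by_contra hcon
      push Not at hcon
      have hcl := closure (hcirc _ hC0) side0
        (fun a b hab ha => hcon a b hab ha) hc0 (Or.inl rfl) _ _ hc1
      rcases hcl with h | ⟨i, j, h⟩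
      · simp at h
      · exact pet_ne_cen _ _ _ _ h.symm
    obtain ⟨a, b, hab, ha, hb⟩ := this
    obtain ⟨i, rfl, rfl⟩ := cross a b ((hcov _).mpr ⟨C, hC0, hab⟩) ha hb
    rw [Finset.mem_image]
    exact ⟨i, Finset.mem_univ _, uniq _ hC0 _ _ hab⟩
  let Y : Finset (Finset (Vtx t × Vtx t)) :=
    Finset.univ.image (fun p : Fin 2 × Fin t => kk p.1 p.2)
  have hYcard : Y.card = 2 * t := by
    have : Function.Injective (fun p : Fin 2 × Fin t => kk p.1 p.2) := by
      intro p q hpq
      simp only at hpq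
      obtain ⟨b, h5⟩ := hub p.1 p.2
      rw [hpq] at h5
      obtain ⟨j, hj⟩ := petv q.1 q.2 _ _ h5
      obtain ⟨h6, h7, _⟩ := pet_inj hj
      exact Prod.ext h6 h7
    rw [Finset.card_image_of_injective _ this]
    simp
  have hdis : Disjoint (X 0 ∪ X 1) Y := by
    rw [Finset.disjoint_left]
    intro C hC hC'
    simp only [Y, Finset.mem_image, Finset.mem_univ, true_and] at hC'
    obtain ⟨p, rfl⟩ := hC'
    rw [Finset.mem_union] at hC
    rcases hC with hC | hC
    · obtain ⟨_, b, hc⟩ := hXmem _ _ hC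
      obtain ⟨j, hj⟩ := petv _ _ _ _ hc
      exact pet_ne_cen _ _ _ _ hj.symm
    · obtain ⟨_, b, hc⟩ := hXmem _ _ hC
      obtain ⟨j, hj⟩ := petv _ _ _ _ hc
      exact pet_ne_cen _ _ _ _ hj.symm
  have hsub : (X 0 ∪ X 1) ∪ Y ⊆ P := by
    intro C hC
    rw [Finset.mem_union, Finset.mem_union] at hC
    rcases hC with (hC | hC) | hC
    · exact (hXmem _ _ hC).1
    · exact (hXmem _ _ hC).1
    · simp only [Y, Finset.mem_image, Finset.mem_univ, true_and] at hC
      obtain ⟨p, rfl⟩ := hC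
      exact hkk _ _
  have c1 := Finset.card_le_card hsub
  rw [Finset.card_union_of_disjoint hdis, hYcard] at c1
  have c2 := Finset.card_union_add_card_inter (X 0) (X 1)
  rw [hXcard, hXcard] at c2
  have c3 := (Finset.card_le_card hinter).trans Finset.card_image_le
  simp only [Finset.card_univ, Fintype.card_fin] at c3
  omega

/-- **Theorem.** For every `t` there is an eulerian oriented graph with `10 t + 2` vertices such
that every decomposition of its arc set into directed circuits has at least `7 t` members; for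
`t ≥ 5` this is more than two thirds of the number of vertices. -/
theorem result (t : ℕ) :
    ∃ A : Finset (Fin (10 * t + 2) × Fin (10 * t + 2)),
      IsOriented A ∧ IsEulerian A ∧
      ∀ P : Finset (Finset (Fin (10 * t + 2) × Fin (10 * t + 2))), IsDecomposition A P →
        7 * t ≤ P.card ∧ (5 ≤ t → 2 * (10 * t + 2) < 3 * P.card) := by
  classical
  have hcard : Fintype.card (Vtx t) = 10 * t + 2 := by
    simp [Vtx]
    ring
  let φ : Vtx t ≃ Fin (10 * t + 2) := Fintype.equivFinOfCardEq hcard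
  let ψ : Vtx t × Vtx t ≃ Fin (10 * t + 2) × Fin (10 * t + 2) := φ.prodCongr φ
  refine ⟨(A t).map ψ.toEmbedding, ?_, ?_, ?_⟩
  · intro u v h h'
    rw [Finset.mem_map_equiv] at h h'
    exact oriented t _ _ h h'
  · intro v
    have h1 : outDeg ((A t).map ψ.toEmbedding) v = outDeg (A t) (φ.symm v) := by
      unfold outDeg
      rw [Finset.filter_map, Finset.card_map]
      congr 1
      refine Finset.filter_congr fun e _ => ?_
      change φ e.1 = v ↔ e.1 = φ.symm v
      rw [Equiv.eq_symm_apply]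
    have h2 : inDeg ((A t).map ψ.toEmbedding) v = inDeg (A t) (φ.symm v) := by
      unfold inDeg
      rw [Finset.filter_map, Finset.card_map]
      congr 1
      refine Finset.filter_congr fun e _ => ?_
      change φ e.2 = v ↔ e.2 = φ.symm v
      rw [Equiv.eq_symm_apply]
    rw [h1, h2]
    exact eulerian t _
  · intro P hP
    have h7 : 7 * t ≤ P.card := by
      obtain ⟨hcirc, hdisj, hcov⟩ := hP
      let Q : Finset (Finset (Vtx t × Vtx t)) := P.image (fun C => C.map ψ.symm.toEmbedding)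
      have hQ : IsDecomposition (A t) Q := by
        refine ⟨?_, ?_, ?_⟩
        · intro C hC
          simp only [Q, Finset.mem_image] at hC
          obtain ⟨D, hD, rfl⟩ := hC
          obtain ⟨k, hk, v, hv, hm⟩ := hcirc D hD
          refine ⟨k, hk, fun i => φ.symm (v i), φ.symm.injective.comp hv, ?_⟩
          intro e
          rw [Finset.mem_map_equiv]
          rw [hm]
          constructor
          · rintro ⟨i, hi⟩
            refine ⟨i, ?_⟩
            have : e = ψ.symm (v i, v (i + 1)) := by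
              rw [← hi]; simp
            rw [this]
            rfl
          · rintro ⟨i, hi⟩
            refine ⟨i, ?_⟩
            rw [hi]
            change (φ (φ.symm (v i)), φ (φ.symm (v (i + 1)))) = _
            simp
        · intro C hC C' hC' hne
          simp only [Q, Finset.mem_image] at hC hC'
          obtain ⟨D, hD, rfl⟩ := hC
          obtain ⟨D', hD', rfl⟩ := hC'
          rw [Finset.disjoint_map]
          exact hdisj D hD D' hD' fun h => hne (by rw [h])
        · intro e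
          have h1 := hcov (ψ e)
          rw [Finset.mem_map_equiv] at h1
          simp only [Equiv.symm_apply_apply] at h1
          rw [h1]
          constructor
          · rintro ⟨C, hC, he⟩
            refine ⟨C.map ψ.symm.toEmbedding, Finset.mem_image_of_mem _ hC, ?_⟩
            rw [Finset.mem_map_equiv]
            exact he
          · rintro ⟨C, hC, he⟩
            simp only [Q, Finset.mem_image] at hC
            obtain ⟨D, hD, rfl⟩ := hC
            rw [Finset.mem_map_equiv] at he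
            exact ⟨D, hD, he⟩
      exact (seven_t t Q hQ).trans Finset.card_image_le
    exact ⟨h7, fun h5 => by omega⟩

end Pool.Agent.Results.MP_dc9599_co.SevenTenths
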